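import Mathlib

/-! # Monotone class theorem for the functions of a family of unimodular functions (MP_c9c10f)

`e x : Ω → ℂ`, `‖e x ω‖ = 1`, `Fs e A = σ(e x, x ∈ A)`.  A class of functions which contains the constants,
`e x` and `conj (e x)` (`x ∈ A`) and is closed under sums, products and bounded pointwise limits contains
all bounded `Fs e A`-measurable functions. -/

set_option autoImplicit false

open MeasureTheory Filter Topology

namespace Pool.Agent.Helper73.P2

variable {Ω G : Type*}

/-- the σ-algebra of the evaluations at `x ∈ A` -/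
@[reducible] noncomputable def Fs (e : G → Ω → ℂ) (A : Set G) : MeasurableSpace Ω :=
  ⨆ x ∈ A, MeasurableSpace.comap (e x) inferInstance

/-- a class closed under sums, products and bounded limits -/
structure Cls (Pr : (Ω → ℂ) → Prop) : Prop where
  const : ∀ c : ℂ, Pr (fun _ => c)
  add : ∀ f g, Pr f → Pr g → Pr (fun ω => f ω + g ω)
  mul : ∀ f g, Pr f → Pr g → Pr (fun ω => f ω * g ω)
  lim : ∀ (f : ℕ → Ω → ℂ) (g : Ω → ℂ) (C : ℝ), (∀ n, Pr (f n)) → (∀ n ω, ‖f n ω‖ ≤ C) →
    (∀ ω, Tendsto (fun n => f n ω) atTop (𝓝 (g ω))) → Pr g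

section
variable {Pr : (Ω → ℂ) → Prop}

theorem Cls.cont (hP : Cls Pr) (u : Ω → ℂ) (hu : ∀ ω, ‖u ω‖ = 1) (h1 : Pr u)
    (h2 : Pr (fun ω => star (u ω))) (F : ℂ → ℂ) (hF : Continuous F) : Pr (fun ω => F (u ω)) := by
  have : CompactSpace (Metric.sphere (0 : ℂ) 1) := isCompact_iff_compactSpace.1 (isCompact_sphere 0 1)
  have hk : ∀ ω, u ω ∈ Metric.sphere (0 : ℂ) 1 := fun ω => by simpa using hu ω
  let f0 : C(Metric.sphere (0 : ℂ) 1, ℂ) := ⟨fun z => F z, hF.comp continuous_subtype_val⟩
  -- polynomials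
  have hpoly : ∀ p ∈ (polynomialFunctions (Metric.sphere (0 : ℂ) 1)).starClosure,
      Pr (fun ω => p ⟨u ω, hk ω⟩) ∧ Pr (fun ω => star (p ⟨u ω, hk ω⟩)) := by
    intro p hp
    rw [polynomialFunctions.starClosure_eq_adjoin_X] at hp
    induction hp using StarAlgebra.adjoin_induction with
    | mem x hx =>
      rw [Set.mem_singleton_iff] at hx
      subst hx
      simp only [Polynomial.toContinuousMapOnAlgHom_apply, Polynomial.toContinuousMapOn_apply,
        Polynomial.toContinuousMap_apply, Polynomial.eval_X]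
      exact ⟨h1, h2⟩
    | algebraMap r => exact ⟨hP.const r, hP.const (star r)⟩
    | add x y _ _ hx hy =>
      refine ⟨hP.add _ _ hx.1 hy.1, ?_⟩
      have := hP.add _ _ hx.2 hy.2
      simpa only [ContinuousMap.add_apply, star_add] using this
    | mul x y _ _ hx hy =>
      refine ⟨hP.mul _ _ hx.1 hy.1, ?_⟩
      have := hP.mul _ _ hx.2 hy.2
      simpa only [ContinuousMap.mul_apply, star_mul'] using this
    | star x _ hx =>
      refine ⟨?_, ?_⟩
      · simpa only [ContinuousMap.star_apply] using hx.2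
      · simpa only [ContinuousMap.star_apply, star_star] using hx.1
  have hcl : f0 ∈ closure ((polynomialFunctions (Metric.sphere (0 : ℂ) 1)).starClosure :
      Set C(Metric.sphere (0 : ℂ) 1, ℂ)) := by
    have h := polynomialFunctions.starClosure_topologicalClosure (𝕜 := ℂ) (Metric.sphere (0 : ℂ) 1)
    have h3 : f0 ∈ (polynomialFunctions (Metric.sphere (0 : ℂ) 1)).starClosure.topologicalClosure := by
      rw [h]
      trivial
    exact h3
  have hseq : ∀ n : ℕ, ∃ p ∈ (polynomialFunctions (Metric.sphere (0 : ℂ) 1)).starClosure,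
      dist f0 p < 1 / ((n : ℝ) + 1) := fun n =>
    Metric.mem_closure_iff.1 hcl _ (by positivity)
  choose p hp hd using hseq
  have hpt : ∀ n ω, dist (F (u ω)) (p n ⟨u ω, hk ω⟩) < 1 / ((n : ℝ) + 1) := fun n ω =>
    lt_of_le_of_lt (ContinuousMap.dist_apply_le_dist (f := f0) (g := p n) ⟨u ω, hk ω⟩) (hd n)
  refine hP.lim (fun n ω => p n ⟨u ω, hk ω⟩) _ (‖f0‖ + 1) (fun n => (hpoly _ (hp n)).1) ?_ ?_
  · intro n ω
    have h4 := hpt n ω
    have h5 : ‖F (u ω)‖ ≤ ‖f0‖ := f0.norm_coe_le_norm ⟨u ω, hk ω⟩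
    have h6 : (1 : ℝ) / ((n : ℝ) + 1) ≤ 1 := by
      rw [div_le_one (by positivity)]
      linarith [Nat.cast_nonneg (α := ℝ) n]
    rw [dist_eq_norm] at h4
    have h7 := norm_sub_norm_le (p n ⟨u ω, hk ω⟩) (F (u ω))
    rw [norm_sub_rev] at h7
    linarith
  · intro ω
    rw [tendsto_iff_dist_tendsto_zero]
    refine squeeze_zero (fun n => dist_nonneg) (fun n => ?_) tendsto_one_div_add_atTop_nhds_zero_nat
    rw [dist_comm]
    exact (hpt n ω).le

theorem Cls.closed (hP : Cls Pr) (u : Ω → ℂ) (hu : ∀ ω, ‖u ω‖ = 1) (h1 : Pr u)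
    (h2 : Pr (fun ω => star (u ω))) (S : Set ℂ) (hS : IsClosed S) :
    Pr (fun ω => S.indicator (fun _ => (1 : ℂ)) (u ω)) := by
  have hδ : ∀ n : ℕ, (0 : ℝ) < 1 / ((n : ℝ) + 1) := fun n => by positivity
  refine hP.lim (fun n ω => ((thickenedIndicator (hδ n) S (u ω) : NNReal) : ℂ)) _ 1 ?_ ?_ ?_
  · intro n
    refine hP.cont u hu h1 h2 (fun z => ((thickenedIndicator (hδ n) S z : NNReal) : ℂ)) ?_
    have h3 := (thickenedIndicator (hδ n) S).continuous
    exact Complex.continuous_ofReal.comp (NNReal.continuous_coe.comp h3)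
  · intro n ω
    have h3 := thickenedIndicator_le_one (hδ n) S (u ω)
    show ‖(((thickenedIndicator (hδ n) S (u ω) : NNReal) : ℝ) : ℂ)‖ ≤ 1
    rw [Complex.norm_real, Real.norm_of_nonneg (NNReal.coe_nonneg _)]
    exact_mod_cast h3
  · intro ω
    have h3 := thickenedIndicator_tendsto_indicator_closure hδ
      tendsto_one_div_add_atTop_nhds_zero_nat S
    rw [tendsto_pi_nhds] at h3
    have h4 := h3 (u ω)
    rw [hS.closure_eq] at h4
    have h5 : Tendsto (fun n => (((thickenedIndicator (hδ n) S (u ω) : NNReal) : ℝ) : ℂ)) atTop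
        (𝓝 (((S.indicator (fun _ => (1 : NNReal)) (u ω) : NNReal) : ℝ) : ℂ)) :=
      (Complex.continuous_ofReal.comp NNReal.continuous_coe).continuousAt.tendsto.comp h4
    have h6 : (((S.indicator (fun _ => (1 : NNReal)) (u ω) : NNReal) : ℝ) : ℂ) =
        S.indicator (fun _ => (1 : ℂ)) (u ω) := by
      by_cases h : u ω ∈ S
      · simp [h]
      · simp [h]
    rw [h6] at h5
    exact h5

/-- the sets whose indicators are in the class -/
@[reducible] def Cls.ms (hP : Cls Pr) : MeasurableSpace Ω where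
  MeasurableSet' B := Pr (B.indicator fun _ => (1 : ℂ))
  measurableSet_empty := by
    have := hP.const 0
    simpa using this
  measurableSet_compl B hB := by
    have h1 := hP.add _ _ (hP.const 1) (hP.mul _ _ (hP.const (-1)) hB)
    have e : (Bᶜ.indicator fun _ => (1 : ℂ)) =
        fun ω => (1 : ℂ) + (-1) * B.indicator (fun _ => (1 : ℂ)) ω := by
      funext ω
      by_cases h : ω ∈ B
      · simp [h]
      · simp [h]
    rw [e]
    exact h1
  measurableSet_iUnion f hf := by
    -- finite unions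
    have hcompl : ∀ B : Set Ω, Pr (B.indicator fun _ => (1 : ℂ)) →
        Pr (Bᶜ.indicator fun _ => (1 : ℂ)) := by
      intro B hB
      have h1 := hP.add _ _ (hP.const 1) (hP.mul _ _ (hP.const (-1)) hB)
      have e : (Bᶜ.indicator fun _ => (1 : ℂ)) =
          fun ω => (1 : ℂ) + (-1) * B.indicator (fun _ => (1 : ℂ)) ω := by
        funext ω
        by_cases h : ω ∈ B
        · simp [h]
        · simp [h]
      rw [e]
      exact h1
    have hinter : ∀ B D : Set Ω, Pr (B.indicator fun _ => (1 : ℂ)) →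
        Pr (D.indicator fun _ => (1 : ℂ)) → Pr ((B ∩ D).indicator fun _ => (1 : ℂ)) := by
      intro B D hB hD
      have h1 := hP.mul _ _ hB hD
      have e : ((B ∩ D).indicator fun _ => (1 : ℂ)) =
          fun ω => B.indicator (fun _ => (1 : ℂ)) ω * D.indicator (fun _ => (1 : ℂ)) ω := by
        funext ω
        by_cases h : ω ∈ B <;> by_cases h' : ω ∈ D <;> simp [h, h']
      rw [e]
      exact h1
    have hunion : ∀ B D : Set Ω, Pr (B.indicator fun _ => (1 : ℂ)) →
        Pr (D.indicator fun _ => (1 : ℂ)) → Pr ((B ∪ D).indicator fun _ => (1 : ℂ)) := by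
      intro B D hB hD
      have h1 := hcompl _ (hinter _ _ (hcompl _ hB) (hcompl _ hD))
      rwa [← Set.compl_union, compl_compl] at h1
    have hfin : ∀ n : ℕ, Pr ((⋃ i ∈ Finset.range n, f i).indicator fun _ => (1 : ℂ)) := by
      intro n
      induction n with
      | zero => simpa using hP.const 0
      | succ n ih =>
        rw [Finset.range_add_one, Finset.set_biUnion_insert]
        exact hunion _ _ (hf n) ih
    refine hP.lim (fun n => (⋃ i ∈ Finset.range n, f i).indicator fun _ => (1 : ℂ)) _ 1 hfin ?_ ?_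
    · intro n ω
      by_cases h : ω ∈ ⋃ i ∈ Finset.range n, f i
      · rw [Set.indicator_of_mem h]
        simp
      · rw [Set.indicator_of_notMem h]
        simp
    · intro ω
      by_cases h : ω ∈ ⋃ i, f i
      · obtain ⟨i, hi⟩ := Set.mem_iUnion.1 h
        rw [Set.indicator_of_mem h]
        refine tendsto_const_nhds.congr' ?_
        filter_upwards [eventually_gt_atTop i] with n hn
        rw [Set.indicator_of_mem]
        exact Set.mem_biUnion (Finset.mem_range.2 hn) hi
      · rw [Set.indicator_of_notMem h]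
        refine tendsto_const_nhds.congr fun n => ?_
        rw [Set.indicator_of_notMem]
        intro h'
        apply h
        obtain ⟨i, hi, hi'⟩ := Set.mem_iUnion₂.1 h'
        exact Set.mem_iUnion.2 ⟨i, hi'⟩

/-- monotone class theorem -/
theorem Cls.mono (hP : Cls Pr) (e : G → Ω → ℂ) (A : Set G) (hu : ∀ x ω, ‖e x ω‖ = 1)
    (h1 : ∀ x ∈ A, Pr (e x)) (h2 : ∀ x ∈ A, Pr (fun ω => star (e x ω))) (f : Ω → ℂ)
    (hf : Measurable[Fs e A] f) (C : ℝ) (hC : ∀ ω, ‖f ω‖ ≤ C) : Pr f := by
  have hle : Fs e A ≤ hP.ms := by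
    refine iSup₂_le fun x hx => ?_
    rw [MeasurableSpace.comap_le_iff_le_map]
    rw [show (inferInstance : MeasurableSpace ℂ) = borel ℂ from BorelSpace.measurable_eq,
      borel_eq_generateFrom_isClosed]
    refine MeasurableSpace.generateFrom_le ?_
    intro S hS
    show Pr ((e x ⁻¹' S).indicator fun _ => (1 : ℂ))
    have h3 := hP.closed (e x) (hu x) (h1 x hx) (h2 x hx) S hS
    have e1 : ((e x ⁻¹' S).indicator fun _ => (1 : ℂ)) =
        fun ω => S.indicator (fun _ => (1 : ℂ)) (e x ω) := by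
      funext ω
      rfl
    rw [e1]
    exact h3
  have hC0 : 0 ≤ |C| := abs_nonneg C
  have hC' : ∀ ω, ‖f ω‖ ≤ |C| := fun ω => (hC ω).trans (le_abs_self C)
  have hsm : StronglyMeasurable[Fs e A] f := hf.stronglyMeasurable
  have hsimp : ∀ s : @SimpleFunc Ω (Fs e A) ℂ, Pr (fun ω => s ω) := by
    intro s
    induction s using SimpleFunc.induction with
    | const c hs =>
      rename_i S
      have h3 : Pr (S.indicator fun _ => (1 : ℂ)) := hle _ hs
      have h4 := hP.mul _ _ (hP.const c) h3
      refine (congrArg Pr ?_).mpr h4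
      funext ω
      simp only [SimpleFunc.coe_piecewise, SimpleFunc.coe_const, Set.piecewise]
      by_cases h : ω ∈ S
      · simp [h]
      · simp [h]
    | add _ hs ht => exact hP.add _ _ hs ht
  refine hP.lim (fun n ω => hsm.approxBounded |C| n ω) f |C| (fun n => hsimp _) ?_ ?_
  · intro n ω
    exact StronglyMeasurable.norm_approxBounded_le hsm hC0 n ω
  · intro ω
    exact StronglyMeasurable.tendsto_approxBounded_of_norm_le hsm (hC' ω)

end

end Pool.Agent.Helper73.P2
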